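import Pool.Agent.Lib.MP_f225de_an.Lower

set_option autoImplicit false

namespace Pool.Agent.Results.MP_f225de_an.CollinearZeros

open Pool.Agent.Lib.MP_f225de_an

theorem result (n : ℕ) (hn : 1 ≤ n) (p : Polynomial ℂ) (hp : p.Monic) (hd : p.natDegree = n) :
    (∀ (u : ℂ) (t : ℝ), u ≠ 0 → (∀ a : ℂ, p.IsRoot a → (u * a).im ≤ t) →
      MeasureTheory.Measure.hausdorffMeasure (1 : ℝ) {z : ℂ | ‖p.eval z‖ = 1 ∧ t ≤ (u * z).im} ≤
        ENNReal.ofReal (2 * Real.pi * (2 : ℝ) ^ (-(1 : ℝ) / n))) ∧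
    (Collinear ℝ {a : ℂ | p.IsRoot a} →
      MeasureTheory.Measure.hausdorffMeasure (1 : ℝ) {z : ℂ | ‖p.eval z‖ = 1} ≤
        ENNReal.ofReal (4 * Real.pi * (2 : ℝ) ^ (-(1 : ℝ) / n)) ∧
      (4 ≤ n →
        MeasureTheory.Measure.hausdorffMeasure (1 : ℝ) {z : ℂ | ‖p.eval z‖ = 1} <
          MeasureTheory.Measure.hausdorffMeasure (1 : ℝ) {z : ℂ | ‖z ^ n - 1‖ = 1})) := by
  subst hd
  refine ⟨fun u t hu h => half_plane p hp hn u hu t h, fun h => ?_⟩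
  exact ⟨collinear_bound p hp hn h,
    fun h4 => (collinear_bound p hp hn h).trans_lt (lower_final _ h4)⟩

end Pool.Agent.Results.MP_f225de_an.CollinearZeros
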