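import Pool.Agent.Lib.MP_f225de_an.C9

set_option autoImplicit false

namespace Pool.Agent.Results.MP_f225de_an.DegreeThree

theorem result (p : Polynomial ℂ) (hp : p.Monic) (hd : p.natDegree = 3) :
    ENNReal.ofReal (max 1 (‖p.discr / 27‖ ^ (1 / 6 : ℝ))) *
        MeasureTheory.Measure.hausdorffMeasure (1 : ℝ) {z : ℂ | ‖p.eval z‖ = 1} ≤
      MeasureTheory.Measure.hausdorffMeasure (1 : ℝ) {z : ℂ | ‖z ^ 3 - 1‖ = 1} := by
  rcases max_cases (1 : ℝ) (‖p.discr / 27‖ ^ (1 / 6 : ℝ)) with h | h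
  · rw [h.1, ENNReal.ofReal_one, one_mul]
    exact Pool.Agent.Lib.MP_f225de_an.Cubic.cubic p hp hd
  · rw [h.1]
    exact Pool.Agent.Lib.MP_f225de_an.Cubic.cubic_discr p hp hd

end Pool.Agent.Results.MP_f225de_an.DegreeThree
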